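import Mathlib
import Pool.Agent.H220.TS.Stm

set_option autoImplicit false

open Set Filter Topology Metric
open scoped ComplexConjugate

/-!
# ab13d2 S_grow: growth of holomorphic functions of positive real part
-/

namespace Pool.Agent.H152.TS

open Pool.Agent.H220.TS

theorem s_grow : S_grow := by
  intro F hF hre z hz
  have h0 : (0 : ℂ) ∈ D := by
    unfold D
    rw [mem_ball_zero_iff, norm_zero]
    exact one_pos
  have hz1 : ‖z‖ < 1 := by
    unfold D at hz
    rwa [mem_ball_zero_iff] at hz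
  have hne : ∀ w ∈ D, F w + conj (F 0) ≠ 0 := by
    intro w hw h
    have h1 := congrArg Complex.re h
    rw [Complex.add_re, Complex.conj_re, Complex.zero_re] at h1
    have h2 := hre w hw
    have h3 := hre 0 h0
    linarith
  obtain ⟨G, hG⟩ : ∃ G : ℂ → ℂ, G = fun w => (F w - F 0) / (F w + conj (F 0)) := ⟨_, rfl⟩
  have hGd : DifferentiableOn ℂ G (ball 0 1) := by
    rw [hG]
    exact (hF.sub_const _).div (hF.add_const _) hne
  have hG0 : G 0 = 0 := by
    rw [hG]
    simp
  have hGm : MapsTo G (ball 0 1) (closedBall 0 1) := by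
    intro w hw
    rw [mem_closedBall_zero_iff, hG]
    show ‖(F w - F 0) / (F w + conj (F 0))‖ ≤ 1
    rw [norm_div]
    have h1 : 0 < ‖F w + conj (F 0)‖ := norm_pos_iff.2 (hne w hw)
    rw [div_le_one h1]
    have h2 := hre w hw
    have h3 := hre 0 h0
    have h4 : ‖F w - F 0‖ ^ 2 ≤ ‖F w + conj (F 0)‖ ^ 2 := by
      rw [← Complex.normSq_eq_norm_sq, ← Complex.normSq_eq_norm_sq, Complex.normSq_apply,
        Complex.normSq_apply]
      simp only [Complex.sub_re, Complex.sub_im, Complex.add_re, Complex.add_im, Complex.conj_re,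
        Complex.conj_im]
      nlinarith [mul_pos h2 h3]
    exact abs_le_of_sq_le_sq' h4 h1.le |>.2
  have hGz : ‖G z‖ ≤ ‖z‖ := Complex.norm_le_norm_of_mapsTo_ball hGd hGm hG0 hz1
  have hid : F z * (1 - G z) = F 0 + conj (F 0) * G z := by
    have h1 := hne z hz
    rw [hG]
    show F z * (1 - (F z - F 0) / (F z + conj (F 0))) =
      F 0 + conj (F 0) * ((F z - F 0) / (F z + conj (F 0)))
    field_simp
    ring
  have h1 : ‖F z‖ * ‖1 - G z‖ ≤ ‖F 0‖ * (1 + ‖z‖) := by
    rw [← norm_mul, hid]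
    refine (norm_add_le _ _).trans ?_
    rw [norm_mul, Complex.norm_conj]
    have := norm_nonneg (F 0)
    nlinarith
  have h2 : 1 - ‖z‖ ≤ ‖1 - G z‖ := by
    have h3 := norm_sub_norm_le (1 : ℂ) (G z)
    rw [norm_one] at h3
    linarith
  have h4 : ‖F z‖ * (1 - ‖z‖) ≤ ‖F 0‖ * (1 + ‖z‖) :=
    (mul_le_mul_of_nonneg_left h2 (norm_nonneg _)).trans h1
  rw [mul_div_assoc', le_div_iff₀ (by linarith)]
  exact h4

end Pool.Agent.H152.TS
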